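import Pool.Agent.N641.VB.Stm3

set_option autoImplicit false

/-!
# Project VB (helper641), part EX3 (helper619): transfer of bi-interpretations
-/

namespace Pool.Agent.N619.VB

open FirstOrder FirstOrder.Language Pool.Agent.N641.VB

/-- realization in `ℕ` with an order and a measure -/
abbrev Rz {M : Type} {k : Type} (le : ℕ → ℕ → Prop) (mu : ℕ → M) (χ : (LM M).Formula k)
    (v : k → ℕ) : Prop := @Formula.Realize (LM M) ℕ (str le mu) k χ v

/-- definable predicates -/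
def Dn {M : Type} {k : Type} (P : (ℕ → ℕ → Prop) → (ℕ → M) → (k → ℕ) → Prop) : Prop :=
  ∃ χ : (LM M).Formula k, ∀ le mu v, Rz le mu χ v ↔ P le mu v

section calculus

variable {M : Type} {k : Type}

theorem Dn.atom {m : Type} (χ : (LM M).Formula m) (g : m → k) (h : (k → ℕ) → m → ℕ)
    (hg : ∀ v i, h v i = v (g i)) : Dn (M := M) (fun le mu v => Rz le mu χ (h v)) := by
  refine ⟨χ.relabel g, fun le mu v => ?_⟩
  have : v ∘ g = h v := funext fun i => (hg v i).symm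
  change Rz le mu (χ.relabel g) v ↔ Rz le mu χ (h v)
  rw [← this]
  exact @Formula.realize_relabel (LM M) ℕ (str le mu) m k χ g v

theorem Dn.le (i j : k) (a b : (k → ℕ) → ℕ) (ha : ∀ v, a v = v i) (hb : ∀ v, b v = v j) :
    Dn (M := M) (fun le _ v => le (a v) (b v)) := by
  refine ⟨Relations.formula (L := LM M) (n := 2) (Pool.Agent.N641.VB.Sym.le : (LM M).Relations 2)
    (fun c : Fin 2 => Term.var (if c = 0 then i else j)), fun le mu v => ?_⟩
  change _ ↔ le (a v) (b v)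
  rw [ha, hb]
  exact @Formula.realize_rel (LM M) ℕ (str le mu) k v 2
    (Pool.Agent.N641.VB.Sym.le : (LM M).Relations 2)
    (fun c : Fin 2 => Term.var (if c = 0 then i else j))

theorem Dn.val (c : M) (i : k) (a : (k → ℕ) → ℕ) (ha : ∀ v, a v = v i) :
    Dn (M := M) (fun _ mu v => mu (a v) = c) := by
  refine ⟨Relations.formula (L := LM M) (n := 1) (Pool.Agent.N641.VB.Sym.val c : (LM M).Relations 1)
    (fun _ : Fin 1 => Term.var i), fun le mu v => ?_⟩
  change _ ↔ mu (a v) = c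
  rw [ha]
  exact @Formula.realize_rel (LM M) ℕ (str le mu) k v 1
    (Pool.Agent.N641.VB.Sym.val c : (LM M).Relations 1) (fun _ : Fin 1 => Term.var i)

theorem Dn.eq (i j : k) (a b : (k → ℕ) → ℕ) (ha : ∀ v, a v = v i) (hb : ∀ v, b v = v j) :
    Dn (M := M) (fun _ _ v => a v = b v) := by
  refine ⟨Term.equal (Term.var i) (Term.var j), fun le mu v => ?_⟩
  change _ ↔ a v = b v
  rw [ha, hb]
  exact @Formula.realize_equal (LM M) ℕ (str le mu) k (Term.var i) (Term.var j) v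

theorem Dn.imp {P Q : (ℕ → ℕ → Prop) → (ℕ → M) → (k → ℕ) → Prop} (hP : Dn P) (hQ : Dn Q) :
    Dn (fun le mu v => P le mu v → Q le mu v) := by
  obtain ⟨χ, hχ⟩ := hP
  obtain ⟨χ', hχ'⟩ := hQ
  refine ⟨χ.imp χ', fun le mu v => ?_⟩
  change _ ↔ (P le mu v → Q le mu v)
  rw [← hχ, ← hχ']
  exact @Formula.realize_imp (LM M) ℕ (str le mu) k χ χ' v

theorem Dn.and {P Q : (ℕ → ℕ → Prop) → (ℕ → M) → (k → ℕ) → Prop} (hP : Dn P) (hQ : Dn Q) :
    Dn (fun le mu v => P le mu v ∧ Q le mu v) := by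
  obtain ⟨χ, hχ⟩ := hP
  obtain ⟨χ', hχ'⟩ := hQ
  refine ⟨χ ⊓ χ', fun le mu v => ?_⟩
  change _ ↔ (P le mu v ∧ Q le mu v)
  rw [← hχ, ← hχ']
  exact @Formula.realize_inf (LM M) ℕ (str le mu) k χ χ' v

theorem Dn.iff {P Q : (ℕ → ℕ → Prop) → (ℕ → M) → (k → ℕ) → Prop} (hP : Dn P) (hQ : Dn Q) :
    Dn (fun le mu v => P le mu v ↔ Q le mu v) := by
  obtain ⟨χ, hχ⟩ := hP
  obtain ⟨χ', hχ'⟩ := hQ
  refine ⟨χ.iff χ', fun le mu v => ?_⟩
  change _ ↔ (P le mu v ↔ Q le mu v)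
  rw [← hχ, ← hχ']
  exact @Formula.realize_iff (LM M) ℕ (str le mu) k χ χ' v

theorem Dn.fin {ι : Type} [Finite ι] {P : ι → (ℕ → ℕ → Prop) → (ℕ → M) → (k → ℕ) → Prop}
    (hP : ∀ i, Dn (P i)) : Dn (fun le mu v => ∀ i, P i le mu v) := by
  choose χ hχ using hP
  refine ⟨Formula.iInf χ, fun le mu v => ?_⟩
  have : (∀ i, P i le mu v) ↔ ∀ i, Rz le mu (χ i) v := forall_congr' fun i => (hχ i le mu v).symm
  change _ ↔ (∀ i, P i le mu v)
  rw [this]
  exact @Formula.realize_iInf (LM M) ℕ (str le mu) k ι _ χ v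

theorem Dn.all {j : Type} [Finite j] {P : (ℕ → ℕ → Prop) → (ℕ → M) → (k → ℕ) → (j → ℕ) → Prop}
    (hP : Dn (k := k ⊕ j) (fun le mu v => P le mu (fun i => v (Sum.inl i)) (fun i => v (Sum.inr i)))) :
    Dn (fun le mu v => ∀ w : j → ℕ, P le mu v w) := by
  obtain ⟨χ, hχ⟩ := hP
  refine ⟨χ.iAlls j, fun le mu v => ?_⟩
  have : (∀ w : j → ℕ, P le mu v w) ↔ ∀ w : j → ℕ, Rz le mu χ (fun a => Sum.elim v w a) :=
    forall_congr' fun w => (hχ le mu (fun a => Sum.elim v w a)).symm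
  change _ ↔ (∀ w : j → ℕ, P le mu v w)
  rw [this]
  exact @Formula.realize_iAlls (LM M) ℕ (str le mu) k j _ χ v

theorem Dn.ex {j : Type} [Finite j] {P : (ℕ → ℕ → Prop) → (ℕ → M) → (k → ℕ) → (j → ℕ) → Prop}
    (hP : Dn (k := k ⊕ j) (fun le mu v => P le mu (fun i => v (Sum.inl i)) (fun i => v (Sum.inr i)))) :
    Dn (fun le mu v => ∃ w : j → ℕ, P le mu v w) := by
  obtain ⟨χ, hχ⟩ := hP
  refine ⟨χ.iExs j, fun le mu v => ?_⟩
  have : (∃ w : j → ℕ, P le mu v w) ↔ ∃ w : j → ℕ, Rz le mu χ (Sum.elim v w) :=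
    exists_congr fun w => (hχ le mu (Sum.elim v w)).symm
  change _ ↔ (∃ w : j → ℕ, P le mu v w)
  rw [this]
  exact @Formula.realize_iExs (LM M) ℕ (str le mu) k j _ χ v

end calculus

/-- transfer of definable predicates -/
theorem transfer (TM4 : S_TM4) {M : Type} [AddCommMonoid M] {n : ℕ} (bo bo' : BooleanAlgebra ℕ)
    (mu mu' : ℕ → M) (q q' : Fin n → ℕ) (hA : @AM M _ ℕ bo mu) (hA' : @AM M _ ℕ bo' mu')
    (hft : ∀ ε, @ft M ℕ bo mu (@cell ℕ bo n q ε) = @ft M ℕ bo' mu' (@cell ℕ bo' n q' ε))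
    {P : (ℕ → ℕ → Prop) → (ℕ → M) → (Fin n → ℕ) → Prop} (hP : Dn P) :
    P bo.le mu q → P bo'.le mu' q' := by
  obtain ⟨χ, hχ⟩ := hP
  obtain ⟨k, hk⟩ := TM4 M n χ
  intro h
  rw [← hχ] at h ⊢
  exact (@hk ℕ ℕ bo bo' mu mu' q q' hA hA' (fun ε => congrFun (hft ε) k)).1 h

section iso

variable {L : FirstOrder.Language.{0, 0}} {M : Type}

/-- the part of `BiInt` about the structure in the algebra -/
structure PB (σ : Sch L M) (S : L.Structure ℕ) {A : Type} [BooleanAlgebra A] (mu : A → M)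
    (q : Fin σ.n' → A) (g : ℕ → Fin σ.r → A) : Prop where
  inj : Function.Injective g
  uni : ∀ x : Fin σ.r → A,
    @Formula.Realize (LM M) A (str (· ≤ ·) mu) _ σ.δ (Sum.elim q x) ↔ ∃ s, g s = x
  rel : ∀ (l : ℕ) (R : L.Relations l) (v : Fin l → ℕ),
    @Formula.Realize (LM M) A (str (· ≤ ·) mu) _ (σ.ρ l R) (Sum.elim q fun x => g (v x.1) x.2) ↔
      @Structure.RelMap L ℕ S l R v
  fun_ : ∀ (l : ℕ) (F : L.Functions l) (v : Fin (l + 1) → ℕ),
    @Formula.Realize (LM M) A (str (· ≤ ·) mu) _ (σ.γ l F) (Sum.elim q fun x => g (v x.1) x.2) ↔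
      @Structure.funMap L ℕ S l F (fun i => v i.castSucc) = v (Fin.last l)

theorem trx (TM3 : S_TM3) (σ : Sch L M) (k : ℕ) (χ : L.Formula (Fin k)) :
    ∃ χ' : (LM M).Formula (Fin σ.n' ⊕ Fin k × Fin σ.r),
      ∀ (S : L.Structure ℕ) (A : Type) [BooleanAlgebra A] (mu : A → M)
        (q : Fin σ.n' → A) (g : ℕ → Fin σ.r → A), PB σ S mu q g → ∀ s : Fin k → ℕ,
        (@Formula.Realize L ℕ S _ χ s ↔
          @Formula.Realize (LM M) A (str (· ≤ ·) mu) _ χ'
            (Sum.elim q fun x => g (s x.1) x.2)) := by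
  obtain ⟨χ', hχ'⟩ := TM3 L M σ k χ
  refine ⟨χ', ?_⟩
  intro S A _ mu q g h s
  have hu : ∀ s : ℕ, @Formula.Realize (LM M) A (str (· ≤ ·) mu) _ σ.δ (Sum.elim q (g s)) :=
    fun s => (h.uni (g s)).2 ⟨s, rfl⟩
  let G : ℕ → {x : Fin σ.r → A //
    @Formula.Realize (LM M) A (str (· ≤ ·) mu) _ σ.δ (Sum.elim q x)} := fun s => ⟨g s, hu s⟩
  have hGb : Function.Bijective G := by
    constructor
    · intro a b hab
      exact h.inj (congrArg Subtype.val hab)
    · rintro ⟨x, hx⟩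
      obtain ⟨s, hs⟩ := (h.uni x).1 hx
      exact ⟨s, Subtype.ext hs⟩
  -- the graph of a function symbol
  have hgr : ∀ (l : ℕ) (F : L.Functions l) (v : Fin l → ℕ) (s : ℕ),
      @Formula.Realize (LM M) A (str (· ≤ ·) mu) _ (σ.γ l F)
        (Sum.elim q fun x => ((Fin.snoc (fun i => (G (v i)).1) (G s).1 : Fin (l + 1) → Fin σ.r → A)
          x.1) x.2) ↔ @Structure.funMap L ℕ S l F v = s := by
    intro l F v s
    have h1 := h.fun_ l F (Fin.snoc v s)
    have h2 : (fun x : Fin (l + 1) × Fin σ.r => g ((Fin.snoc v s : Fin (l + 1) → ℕ) x.1) x.2) =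
        fun x => ((Fin.snoc (fun i => (G (v i)).1) (G s).1 : Fin (l + 1) → Fin σ.r → A) x.1) x.2 := by
      funext x
      obtain ⟨a, c⟩ := x
      refine Fin.lastCases ?_ (fun a => ?_) a
      · simp only [Fin.snoc_last]; rfl
      · simp only [Fin.snoc_castSucc]; rfl
    rw [h2] at h1
    have h3 : (fun i : Fin l => (Fin.snoc v s : Fin (l + 1) → ℕ) i.castSucc) = v := by
      funext i
      simp only [Fin.snoc_castSucc]
    rw [h3, Fin.snoc_last] at h1
    exact h1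
  have hF : Fnl σ mu q := by
    intro l F v
    choose t ht using fun i => hGb.2 (v i)
    have hv : v = fun i => G (t i) := funext fun i => (ht i).symm
    subst hv
    refine ⟨G (@Structure.funMap L ℕ S l F t), ?_, ?_⟩
    · exact (hgr l F t _).2 rfl
    · intro w hw
      obtain ⟨s', rfl⟩ := hGb.2 w
      exact congrArg G ((hgr l F t s').1 hw).symm
  have h1 := hχ' A mu q (G 0) hF (fun i => G (s i))
  refine Iff.trans ?_ h1
  let J := JS σ mu q (G 0)
  let e : @FirstOrder.Language.Equiv L ℕ _ S J :=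
    @FirstOrder.Language.Equiv.mk L ℕ _ S J (Equiv.ofBijective G hGb)
      (by
        intro l F v
        have hex : ∃ w : {x : Fin σ.r → A //
            @Formula.Realize (LM M) A (str (· ≤ ·) mu) _ σ.δ (Sum.elim q x)},
          @Formula.Realize (LM M) A (str (· ≤ ·) mu) _ (σ.γ l F)
          (Sum.elim q fun x => ((Fin.snoc (fun i => (G (v i)).1) w.1 : Fin (l + 1) → Fin σ.r → A)
            x.1) x.2) := ⟨G (@Structure.funMap L ℕ S l F v), (hgr l F v _).2 rfl⟩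
        have h5 : @Structure.funMap L _ J l F (fun i => G (v i)) = hex.choose := by
          exact dif_pos hex
        have h6 := hex.choose_spec
        obtain ⟨s', hs'⟩ := hGb.2 hex.choose
        rw [← hs'] at h6 h5
        have h7 := (hgr l F v s').1 h6
        change G (@Structure.funMap L ℕ S l F v) = @Structure.funMap L _ J l F (fun i => G (v i))
        rw [h5, h7])
      (by
        intro l R v
        exact h.rel l R v)
  let _ := S
  let _ := J
  exact (StrongHomClass.realize_formula e χ (v := s)).symm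

/-- formulas with the parameters of the structure -/
theorem trp (TM3 : S_TM3) (σ : Sch L M) (m : ℕ) (χ : L.Formula (Fin σ.n ⊕ Fin m)) :
    ∃ χ' : (LM M).Formula (Fin σ.n' ⊕ Fin (σ.n + m) × Fin σ.r),
      ∀ (S : L.Structure ℕ) (A : Type) [BooleanAlgebra A] (mu : A → M)
        (q : Fin σ.n' → A) (g : ℕ → Fin σ.r → A), PB σ S mu q g → ∀ p : Fin σ.n → ℕ,
        (∀ j i, g (p j) i = q (σ.π j i)) → ∀ s : Fin m → ℕ,
        (@Formula.Realize L ℕ S _ χ (Sum.elim p s) ↔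
          @Formula.Realize (LM M) A (str (· ≤ ·) mu) _ χ'
            (Sum.elim q fun a => (Sum.elim (fun j c => q (σ.π j c)) (fun i c => g (s i) c)
              (finSumFinEquiv.symm a.1) : Fin σ.r → A) a.2)) := by
  obtain ⟨χ', hχ'⟩ := trx TM3 σ (σ.n + m) (χ.relabel finSumFinEquiv)
  refine ⟨χ', ?_⟩
  intro S A _ mu q g h p hp s
  have h1 := hχ' S A mu q g h (Sum.elim p s ∘ finSumFinEquiv.symm)
  have h2 : @Formula.Realize L ℕ S _ (χ.relabel finSumFinEquiv) (Sum.elim p s ∘ finSumFinEquiv.symm) ↔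
      @Formula.Realize L ℕ S _ χ (Sum.elim p s) := by
    have h3 := @Formula.realize_relabel L ℕ S _ _ χ finSumFinEquiv (Sum.elim p s ∘ finSumFinEquiv.symm)
    have h4 : ((Sum.elim p s ∘ finSumFinEquiv.symm) ∘ finSumFinEquiv : Fin σ.n ⊕ Fin m → ℕ) =
        Sum.elim p s := by
      funext i
      simp
    rw [h4] at h3
    exact h3
  have h5 : (fun x : Fin (σ.n + m) × Fin σ.r => g ((Sum.elim p s ∘ finSumFinEquiv.symm) x.1) x.2) =
      fun a => (Sum.elim (fun j c => q (σ.π j c)) (fun i c => g (s i) c)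
              (finSumFinEquiv.symm a.1) : Fin σ.r → A) a.2 := by
    funext x
    obtain ⟨a, c⟩ := x
    change g (Sum.elim p s (finSumFinEquiv.symm a)) c = (Sum.elim (fun j c => q (σ.π j c))
      (fun i c => g (s i) c) (finSumFinEquiv.symm a) : Fin σ.r → A) c
    rcases finSumFinEquiv.symm a with j | i
    · exact hp j c
    · rfl
  rw [h5] at h1
  exact h2.symm.trans h1

end iso

section preds

variable {L : FirstOrder.Language.{0, 0}} {M : Type} (σ : Sch L M)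

theorem snoc_comp {α k : Type} {l r : ℕ} (v : k → α) (X : Fin l → Fin r → k) (Y : Fin r → k)
    (a : Fin (l + 1)) (c : Fin r) :
    (Fin.snoc (fun i c => v (X i c)) (fun c => v (Y c)) : Fin (l + 1) → Fin r → α) a c =
      v ((Fin.snoc X Y : Fin (l + 1) → Fin r → k) a c) := by
  refine Fin.lastCases ?_ (fun a => ?_) a
  · simp only [Fin.snoc_last]
  · simp only [Fin.snoc_castSucc]

theorem Dn.sub {M : Type} {k m : Type} {R : (ℕ → ℕ → Prop) → (ℕ → M) → (m → ℕ) → Prop} (hR : Dn R)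
    (g : m → k) (h : (k → ℕ) → m → ℕ) (hg : ∀ v i, h v i = v (g i)) :
    Dn (M := M) (fun le mu v => R le mu (h v)) := by
  obtain ⟨χ, hχ⟩ := hR
  obtain ⟨χ', hχ'⟩ := Dn.atom χ g h hg
  refine ⟨χ', fun le mu v => ?_⟩
  rw [hχ' le mu v]
  exact hχ le mu (h v)

/-- the graph of a function symbol is functional -/
def HB (l : ℕ) (F : L.Functions l) (le : ℕ → ℕ → Prop) (mu : ℕ → M) (q : Fin σ.n' → ℕ) : Prop :=
  ∀ x : Fin l × Fin σ.r → ℕ, (∀ i : Fin l, Rz le mu σ.δ (Sum.elim q fun c => x (i, c))) →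
    ∃ y : Fin σ.r → ℕ, (Rz le mu σ.δ (Sum.elim q y) ∧
      Rz le mu (σ.γ l F) (Sum.elim q fun a =>
        (Fin.snoc (fun i c => x (i, c)) y : Fin (l + 1) → Fin σ.r → ℕ) a.1 a.2)) ∧
      ∀ y' : Fin σ.r → ℕ, Rz le mu σ.δ (Sum.elim q y') →
        Rz le mu (σ.γ l F) (Sum.elim q fun a =>
          (Fin.snoc (fun i c => x (i, c)) y' : Fin (l + 1) → Fin σ.r → ℕ) a.1 a.2) →
        ∀ c, y' c = y c

theorem dHB (l : ℕ) (F : L.Functions l) : Dn (HB σ l F) := by
  unfold HB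
  refine Dn.all ?_
  refine Dn.imp (Dn.fin fun i => ?_) (Dn.ex ?_)
  · exact Dn.atom σ.δ (Sum.elim (fun j => Sum.inl j) (fun c => Sum.inr (i, c))) _
      (by rintro v (j | c) <;> rfl)
  · refine Dn.and (Dn.and ?_ ?_) (Dn.all (Dn.imp ?_ (Dn.imp ?_ (Dn.fin fun c => ?_))))
    · exact Dn.atom σ.δ (Sum.elim (fun j => Sum.inl (Sum.inl j)) (fun c => Sum.inr c)) _
        (by rintro v (j | c) <;> rfl)
    · refine Dn.atom (σ.γ l F) (Sum.elim (fun j => Sum.inl (Sum.inl j))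
        (fun a => (Fin.snoc (fun i c => Sum.inl (Sum.inr (i, c))) (fun c => Sum.inr c) :
          Fin (l + 1) → Fin σ.r → (Fin σ.n' ⊕ Fin l × Fin σ.r) ⊕ Fin σ.r) a.1 a.2)) _ ?_
      rintro v (j | ⟨a, c⟩)
      · rfl
      · exact snoc_comp v (fun i c => Sum.inl (Sum.inr (i, c))) (fun c => Sum.inr c) a c
    · exact Dn.atom σ.δ (Sum.elim (fun j => Sum.inl (Sum.inl (Sum.inl j))) (fun c => Sum.inr c)) _
        (by rintro v (j | c) <;> rfl)
    · refine Dn.atom (σ.γ l F) (Sum.elim (fun j => Sum.inl (Sum.inl (Sum.inl j)))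
        (fun a => (Fin.snoc (fun i c => Sum.inl (Sum.inl (Sum.inr (i, c)))) (fun c => Sum.inr c) :
          Fin (l + 1) → Fin σ.r → ((Fin σ.n' ⊕ Fin l × Fin σ.r) ⊕ Fin σ.r) ⊕ Fin σ.r) a.1 a.2)) _ ?_
      rintro v (j | ⟨a, c⟩)
      · rfl
      · exact snoc_comp v (fun i c => Sum.inl (Sum.inl (Sum.inr (i, c)))) (fun c => Sum.inr c) a c
    · exact Dn.eq (Sum.inr c) (Sum.inl (Sum.inr c)) _ _ (fun v => rfl) (fun v => rfl)

/-- every point of the structure has exactly one image -/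
def HC (le : ℕ → ℕ → Prop) (mu : ℕ → M) (q : Fin σ.n' → ℕ) : Prop :=
  ∀ x : Fin σ.r → ℕ, Rz le mu σ.δ (Sum.elim q x) →
    ∃ b : Fin 1 → ℕ, Rz le mu σ.κ (Sum.elim q (Sum.elim x b)) ∧
      ∀ b' : Fin 1 → ℕ, Rz le mu σ.κ (Sum.elim q (Sum.elim x b')) → b' 0 = b 0

theorem dHC : Dn (HC σ) := by
  unfold HC
  refine Dn.all (Dn.imp ?_ (Dn.ex (Dn.and ?_ (Dn.all (Dn.imp ?_ ?_)))))
  · exact Dn.atom σ.δ (Sum.elim (fun j => Sum.inl j) (fun c => Sum.inr c)) _
      (by rintro v (j | c) <;> rfl)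
  · exact Dn.atom σ.κ (Sum.elim (fun j => Sum.inl (Sum.inl j)) (Sum.elim
      (fun c => Sum.inl (Sum.inr c)) (fun c => Sum.inr c))) _ (by rintro v (j | c | c) <;> rfl)
  · exact Dn.atom σ.κ (Sum.elim (fun j => Sum.inl (Sum.inl (Sum.inl j))) (Sum.elim
      (fun c => Sum.inl (Sum.inl (Sum.inr c))) (fun c => Sum.inr c))) _
      (by rintro v (j | c | c) <;> rfl)
  · exact Dn.eq (Sum.inr 0) (Sum.inl (Sum.inr 0)) _ _ (fun v => rfl) (fun v => rfl)

/-- every element of the algebra is an image -/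
def HS (le : ℕ → ℕ → Prop) (mu : ℕ → M) (q : Fin σ.n' → ℕ) : Prop :=
  ∀ b : Fin 1 → ℕ, ∃ x : Fin σ.r → ℕ, Rz le mu σ.δ (Sum.elim q x) ∧
    Rz le mu σ.κ (Sum.elim q (Sum.elim x b))

theorem dHS : Dn (HS σ) := by
  unfold HS
  refine Dn.all (Dn.ex (Dn.and ?_ ?_))
  · exact Dn.atom σ.δ (Sum.elim (fun j => Sum.inl (Sum.inl j)) (fun c => Sum.inr c)) _
      (by rintro v (j | c) <;> rfl)
  · exact Dn.atom σ.κ (Sum.elim (fun j => Sum.inl (Sum.inl j)) (Sum.elim
      (fun c => Sum.inr c) (fun c => Sum.inl (Sum.inr c)))) _ (by rintro v (j | c | c) <;> rfl)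

/-- the parameters -/
theorem dHD (j : Fin σ.n) : Dn (M := M) (fun le mu (q : Fin σ.n' → ℕ) =>
    Rz le mu σ.δ (Sum.elim q fun i => q (σ.π j i))) :=
  Dn.atom σ.δ (Sum.elim (fun j => j) (fun c => σ.π j c)) _ (by rintro v (j | c) <;> rfl)

/-- a formula with parameters is the same as a relation of the images -/
def HE (m : ℕ) (χ' : (LM M).Formula (Fin σ.n' ⊕ Fin (σ.n + m) × Fin σ.r))
    (R : (ℕ → ℕ → Prop) → (ℕ → M) → (Fin m → ℕ) → Prop)
    (le : ℕ → ℕ → Prop) (mu : ℕ → M) (q : Fin σ.n' → ℕ) : Prop :=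
  ∀ x : Fin m × Fin σ.r → ℕ, ∀ b : Fin m → ℕ,
    (∀ i : Fin m, Rz le mu σ.δ (Sum.elim q fun c => x (i, c)) ∧
      Rz le mu σ.κ (Sum.elim q (Sum.elim (fun c => x (i, c)) fun _ => b i))) →
    (Rz le mu χ' (Sum.elim q fun a => (Sum.elim (fun j c => q (σ.π j c)) (fun i c => x (i, c))
              (finSumFinEquiv.symm a.1) : Fin σ.r → ℕ) a.2) ↔ R le mu b)

theorem dHE (m : ℕ) (χ' : (LM M).Formula (Fin σ.n' ⊕ Fin (σ.n + m) × Fin σ.r))
    (R : (ℕ → ℕ → Prop) → (ℕ → M) → (Fin m → ℕ) → Prop) (hR : Dn R) : Dn (HE σ m χ' R) := by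
  unfold HE
  refine Dn.all (Dn.all (Dn.imp (Dn.fin fun i => Dn.and ?_ ?_) (Dn.iff ?_ ?_)))
  · exact Dn.atom σ.δ (Sum.elim (fun j => Sum.inl (Sum.inl j)) (fun c => Sum.inl (Sum.inr (i, c)))) _
      (by rintro v (j | c) <;> rfl)
  · exact Dn.atom σ.κ (Sum.elim (fun j => Sum.inl (Sum.inl j)) (Sum.elim
      (fun c => Sum.inl (Sum.inr (i, c))) (fun _ => Sum.inr i))) _ (by rintro v (j | c | c) <;> rfl)
  · refine Dn.atom χ' (Sum.elim (fun j => Sum.inl (Sum.inl j)) (fun a => (Sum.elim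
      (fun j c => Sum.inl (Sum.inl (σ.π j c))) (fun i c => Sum.inl (Sum.inr (i, c)))
        (finSumFinEquiv.symm a.1) : Fin σ.r → (Fin σ.n' ⊕ Fin m × Fin σ.r) ⊕ Fin m) a.2)) _ ?_
    rintro v (j | ⟨a, c⟩)
    · rfl
    · simp only [Sum.elim_inr]
      rcases finSumFinEquiv.symm a with j | i <;> rfl
  · exact Dn.sub hR (fun i => Sum.inr i) _ (fun v i => rfl)

/-- sentences -/
theorem dHT (χ' : (LM M).Formula (Fin σ.n' ⊕ Fin 0 × Fin σ.r)) :
    Dn (M := M) (fun le mu (q : Fin σ.n' → ℕ) =>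
      Rz le mu χ' (Sum.elim q fun a => (a.1.elim0 : ℕ))) :=
  Dn.atom χ' (Sum.elim (fun j => j) (fun a => a.1.elim0)) _ (by
    rintro v (j | a)
    · rfl
    · exact a.1.elim0)

end preds

/-- the data of `BiInt` give the transferred properties -/
theorem ex3_HB {L : FirstOrder.Language.{0, 0}} {M : Type} {σ : Sch L M} {S : L.Structure ℕ}
    {bo : BooleanAlgebra ℕ} {mu : ℕ → M} {q : Fin σ.n' → ℕ} {p : Fin σ.n → ℕ}
    {g : ℕ → Fin σ.r → ℕ} {f : ℕ → ℕ} (h : BiInt σ S bo mu q p g f) (l : ℕ) (F : L.Functions l) :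
    HB σ l F bo.le mu q := by
  intro x hx
  have hx' : ∀ i : Fin l, ∃ s, g s = fun c => x (i, c) := fun i => (h.uni _).1 (hx i)
  choose t ht using hx'
  have key : ∀ s : ℕ, Rz bo.le mu (σ.γ l F) (Sum.elim q fun a =>
        (Fin.snoc (fun i c => x (i, c)) (g s) : Fin (l + 1) → Fin σ.r → ℕ) a.1 a.2) ↔
        @Structure.funMap L ℕ S l F t = s := by
    intro s
    have h1 := h.fun_ l F (Fin.snoc t s)
    have h2 : (fun x : Fin (l + 1) × Fin σ.r => g ((Fin.snoc t s : Fin (l + 1) → ℕ) x.1) x.2) =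
        fun a => (Fin.snoc (fun i c => x (i, c)) (g s) : Fin (l + 1) → Fin σ.r → ℕ) a.1 a.2 := by
      funext z
      obtain ⟨a, c⟩ := z
      refine Fin.lastCases ?_ (fun a => ?_) a
      · simp only [Fin.snoc_last]
      · simp only [Fin.snoc_castSucc]
        exact congrFun (ht a) c
    rw [h2] at h1
    have h3 : (fun i : Fin l => (Fin.snoc t s : Fin (l + 1) → ℕ) i.castSucc) = t := by
      funext i
      simp only [Fin.snoc_castSucc]
    rw [h3, Fin.snoc_last] at h1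
    exact h1
  refine ⟨g (@Structure.funMap L ℕ S l F t), ⟨(h.uni _).2 ⟨_, rfl⟩, (key _).2 rfl⟩, ?_⟩
  intro y' hy' hy2 c
  obtain ⟨s, rfl⟩ := (h.uni _).1 hy'
  rw [(key s).1 hy2]

/-- EX3 -/
theorem EX3 (TM3 : S_TM3) (TM4 : S_TM4) : S_EX3 := by
  intro L M _ _ σ S bo bo' mu mu' q q' p g f hB hA hA' hft
  have hPB : @PB L M σ S ℕ bo mu q g :=
    @PB.mk L M σ S ℕ bo mu q g hB.inj hB.uni hB.rel hB.fun_
  -- the properties in the second algebra
  have hb : ∀ (l : ℕ) (F : L.Functions l), HB σ l F bo'.le mu' q' := fun l F =>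
    transfer TM4 bo bo' mu mu' q q' hA hA' hft (dHB σ l F) (ex3_HB hB l F)
  have hc : HC σ bo'.le mu' q' := by
    refine transfer TM4 bo bo' mu mu' q q' hA hA' hft (dHC σ) ?_
    intro x hx
    obtain ⟨s, rfl⟩ := (hB.uni x).1 hx
    refine ⟨fun _ => f s, (hB.comp s (f s)).2 rfl, ?_⟩
    intro b' hb'
    have h1 : b' = fun _ => b' 0 := by
      funext i
      rw [Subsingleton.elim i 0]
    rw [h1] at hb'
    exact ((hB.comp s (b' 0)).1 hb').symm
  have hs : HS σ bo'.le mu' q' := by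
    refine transfer TM4 bo bo' mu mu' q q' hA hA' hft (dHS σ) ?_
    intro b
    obtain ⟨s, hs⟩ := hB.surj (b 0)
    refine ⟨g s, (hB.uni _).2 ⟨s, rfl⟩, ?_⟩
    have h1 : b = fun _ => b 0 := by
      funext i
      rw [Subsingleton.elim i 0]
    rw [h1]
    exact (hB.comp s (b 0)).2 hs
  have hd : ∀ j : Fin σ.n, Rz bo'.le mu' σ.δ (Sum.elim q' fun i => q' (σ.π j i)) := by
    intro j
    refine transfer TM4 bo bo' mu mu' q q' hA hA' hft (dHD σ j) ?_
    refine (hB.uni _).2 ⟨p j, ?_⟩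
    funext i
    exact hB.par j i
  -- the formulas of the order and the measure
  obtain ⟨φ', hφ'⟩ := trp TM3 σ 2 σ.φ
  have he : HE σ 2 φ' (fun le _ b => le (b 0) (b 1)) bo'.le mu' q' := by
    refine transfer TM4 bo bo' mu mu' q q' hA hA' hft (dHE σ 2 φ' _
      (Dn.le 0 1 _ _ (fun v => rfl) (fun v => rfl))) ?_
    intro x b hxb
    have hx' : ∀ i : Fin 2, ∃ s, g s = fun c => x (i, c) := fun i => (hB.uni _).1 (hxb i).1
    choose t ht using hx'
    have hx : x = fun a => g (t a.1) a.2 := by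
      funext a
      exact (congrFun (ht a.1) a.2).symm
    subst hx
    have hft' : ∀ i, f (t i) = b i := fun i => (hB.comp (t i) (b i)).1 (hxb i).2
    have h1 := @hφ' S ℕ bo mu q g hPB p hB.par t
    refine h1.symm.trans ?_
    rw [hB.le t, hft' 0, hft' 1]
  choose ψ' hψ' using fun c : M => trp TM3 σ 1 (σ.ψ c)
  have hv : ∀ c : M, HE σ 1 (ψ' c) (fun _ mu b => mu (b 0) = c) bo'.le mu' q' := by
    intro c
    refine transfer TM4 bo bo' mu mu' q q' hA hA' hft (dHE σ 1 (ψ' c) _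
      (Dn.val c 0 _ (fun v => rfl))) ?_
    intro x b hxb
    have hx' : ∀ i : Fin 1, ∃ s, g s = fun c => x (i, c) := fun i => (hB.uni _).1 (hxb i).1
    choose t ht using hx'
    have hx : x = fun a => g (t a.1) a.2 := by
      funext a
      exact (congrFun (ht a.1) a.2).symm
    subst hx
    have hft' : ∀ i, f (t i) = b i := fun i => (hB.comp (t i) (b i)).1 (hxb i).2
    have h1 := @hψ' c S ℕ bo mu q g hPB p hB.par t
    refine h1.symm.trans ?_
    rw [hB.val c t, hft' 0]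
  -- the universe
  have hinf : Infinite {x : Fin σ.r → ℕ // Rz bo'.le mu' σ.δ (Sum.elim q' x)} := by
    have hsurj : Function.Surjective
        (fun x : {x : Fin σ.r → ℕ // Rz bo'.le mu' σ.δ (Sum.elim q' x)} => (hc x.1 x.2).choose 0) := by
      intro b
      obtain ⟨x, hx1, hx2⟩ := hs (fun _ => b)
      refine ⟨⟨x, hx1⟩, ?_⟩
      exact ((hc x hx1).choose_spec.2 (fun _ => b) hx2).symm
    exact Infinite.of_surjective _ hsurj
  obtain ⟨e⟩ : Nonempty (ℕ ≃ {x : Fin σ.r → ℕ // Rz bo'.le mu' σ.δ (Sum.elim q' x)}) :=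
    nonempty_equiv_of_countable
  have huni : ∀ x : Fin σ.r → ℕ, Rz bo'.le mu' σ.δ (Sum.elim q' x) ↔ ∃ s, (e s).1 = x := by
    intro x
    constructor
    · intro hx
      exact ⟨e.symm ⟨x, hx⟩, by rw [e.apply_symm_apply]⟩
    · rintro ⟨s, rfl⟩
      exact (e s).2
  -- the values of the function symbols
  have hfm : ∀ (l : ℕ) (F : L.Functions l) (v : Fin l → ℕ), ∃ y : ℕ, ∀ s : ℕ,
      Rz bo'.le mu' (σ.γ l F) (Sum.elim q' fun a =>
        (Fin.snoc (fun i c => (e (v i)).1 c) (e s).1 : Fin (l + 1) → Fin σ.r → ℕ) a.1 a.2) ↔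
        y = s := by
    intro l F v
    obtain ⟨y, ⟨hy1, hy2⟩, hy3⟩ := hb l F (fun a => (e (v a.1)).1 a.2) (fun i => (e (v i)).2)
    obtain ⟨y0, rfl⟩ := (huni y).1 hy1
    refine ⟨y0, fun s => ⟨fun h => ?_, ?_⟩⟩
    · have h1 := hy3 (e s).1 (e s).2 h
      have h2 : (e s).1 = (e y0).1 := funext h1
      exact (e.injective (Subtype.ext h2)).symm
    · rintro rfl
      exact hy2
  choose fm hfm using hfm
  -- the structure
  let S' : L.Structure ℕ :=
    { funMap := fun {l} F v => fm l F v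
      RelMap := fun {l} R v => Rz bo'.le mu' (σ.ρ l R) (Sum.elim q' fun x => (e (v x.1)).1 x.2) }
  let p' : Fin σ.n → ℕ := fun j => e.symm ⟨fun i => q' (σ.π j i), hd j⟩
  let g' : ℕ → Fin σ.r → ℕ := fun s => (e s).1
  let f' : ℕ → ℕ := fun s => (hc (e s).1 (e s).2).choose 0
  have hcomp : ∀ s b : ℕ, Rz bo'.le mu' σ.κ (Sum.elim q' (Sum.elim (g' s) fun _ => b)) ↔ f' s = b := by
    intro s b
    have h1 := (hc (e s).1 (e s).2).choose_spec
    constructor
    · intro h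
      exact (h1.2 (fun _ => b) h).symm
    · intro h
      have h2 : (hc (e s).1 (e s).2).choose = fun _ => b := by
        funext i
        rw [Subsingleton.elim i 0]
        exact h
      have h3 := h1.1
      rw [h2] at h3
      exact h3
  have hpar : ∀ j i, g' (p' j) i = q' (σ.π j i) := by
    intro j i
    change (e (e.symm ⟨fun i => q' (σ.π j i), hd j⟩)).1 i = _
    rw [e.apply_symm_apply]
  have hPB' : @PB L M σ S' ℕ bo' mu' q' g' := by
    refine @PB.mk L M σ S' ℕ bo' mu' q' g' ?_ huni ?_ ?_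
    · intro a b hab
      exact e.injective (Subtype.ext hab)
    · intro l R v
      exact Iff.rfl
    · intro l F v
      have h1 := hfm l F (fun i => v i.castSucc) (v (Fin.last l))
      have h2 : (fun a : Fin (l + 1) × Fin σ.r => (Fin.snoc (fun i c => (e (v i.castSucc)).1 c)
          (e (v (Fin.last l))).1 : Fin (l + 1) → Fin σ.r → ℕ) a.1 a.2) =
          fun x => g' (v x.1) x.2 := by
        funext z
        obtain ⟨a, c⟩ := z
        refine Fin.lastCases ?_ (fun a => ?_) a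
        · simp only [Fin.snoc_last]; rfl
        · simp only [Fin.snoc_castSucc]; rfl
      rw [h2] at h1
      exact h1
  have hx2 : ∀ s : ℕ, Rz bo'.le mu' σ.δ (Sum.elim q' fun c => g' s c) ∧
      Rz bo'.le mu' σ.κ (Sum.elim q' (Sum.elim (fun c => g' s c) fun _ => f' s)) :=
    fun s => ⟨(e s).2, (hcomp s (f' s)).2 rfl⟩
  refine ⟨S', p', g', f', ?_, ?_⟩
  · refine @BiInt.mk L M σ S' bo' mu' q' p' g' f' hPB'.inj ?_ huni hPB'.rel hPB'.fun_ ?_ ?_ hcomp hpar
    · intro b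
      obtain ⟨x, hx1, hx2⟩ := hs (fun _ => b)
      obtain ⟨s, rfl⟩ := (huni x).1 hx1
      exact ⟨s, (hcomp s b).1 hx2⟩
    · intro v
      have h1 := @hφ' S' ℕ bo' mu' q' g' hPB' p' hpar v
      refine h1.trans ?_
      exact he (fun a => g' (v a.1) a.2) (fun i => f' (v i)) (fun i => hx2 (v i))
    · intro c v
      have h1 := @hψ' c S' ℕ bo' mu' q' g' hPB' p' hpar v
      refine h1.trans ?_
      exact hv c (fun a => g' (v a.1) a.2) (fun i => f' (v i)) (fun i => hx2 (v i))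
  · intro T hT
    rw [@Theory.model_iff L ℕ S'] 
    rw [@Theory.model_iff L ℕ S] at hT
    intro θ hθ
    obtain ⟨θ', hθ'⟩ := trx TM3 σ 0 (Formula.relabel (Empty.elim : Empty → Fin 0) θ)
    have hrel : ∀ (S₀ : L.Structure ℕ) (s : Fin 0 → ℕ),
        @Formula.Realize L ℕ S₀ _ (Formula.relabel (Empty.elim : Empty → Fin 0) θ) s ↔
        @Sentence.Realize L ℕ S₀ θ := by
      intro S₀ s
      have h1 := @Formula.realize_relabel L ℕ S₀ _ _ θ (Empty.elim : Empty → Fin 0) s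
      rw [h1]
      unfold Sentence.Realize
      exact iff_of_eq (congrArg (@Formula.Realize L ℕ S₀ _ θ) (Subsingleton.elim _ _))
    have h1 := @hθ' S ℕ bo mu q g hPB (fun i => i.elim0)
    have h2 := @hθ' S' ℕ bo' mu' q' g' hPB' (fun i => i.elim0)
    rw [hrel] at h1 h2
    have e1 : (fun x : Fin 0 × Fin σ.r => g ((fun i : Fin 0 => (i.elim0 : ℕ)) x.1) x.2) =
        fun a => (a.1.elim0 : ℕ) := by
      funext a
      exact a.1.elim0
    have e2 : (fun x : Fin 0 × Fin σ.r => g' ((fun i : Fin 0 => (i.elim0 : ℕ)) x.1) x.2) =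
        fun a => (a.1.elim0 : ℕ) := by
      funext a
      exact a.1.elim0
    rw [e1] at h1
    rw [e2] at h2
    rw [h2]
    exact transfer TM4 bo bo' mu mu' q q' hA hA' hft (dHT σ θ') (h1.1 (hT θ hθ))

end Pool.Agent.N619.VB
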