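import Pool.Agent.N641.VB.Stm10

set_option autoImplicit false

/-!
Project VB, part AGA: Boolean algebras with a finite abelian group of automorphisms. The section on
points is taken from the part AUA of helper221.
-/

namespace Pool.Agent.N619.VB.AGAp

open Pool.Agent.N641.VB Finset

/-! ### Points -/

/-- points of the Stone space -/
structure Pt (B : Type) [BooleanAlgebra B] where
  v : B → Prop
  top : v ⊤
  inf : ∀ a b, v (a ⊓ b) ↔ v a ∧ v b
  compl : ∀ a, v aᶜ ↔ ¬ v a

section Points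

variable {B : Type} [BooleanAlgebra B]

theorem pbot (q : Pt B) : ¬ q.v ⊥ := by
  have h := q.compl ⊤
  rw [compl_top] at h
  rw [h]
  exact not_not.2 q.top

theorem psup (q : Pt B) (a b : B) : q.v (a ⊔ b) ↔ q.v a ∨ q.v b := by
  have h : a ⊔ b = (aᶜ ⊓ bᶜ)ᶜ := by rw [compl_inf, compl_compl, compl_compl]
  rw [h, q.compl, q.inf, q.compl, q.compl]
  tauto

theorem pfsup (q : Pt B) {ι : Type} (s : Finset ι) (f : ι → B) :
    q.v (s.sup f) ↔ ∃ i ∈ s, q.v (f i) := by
  classical
  induction s using Finset.induction_on with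
  | empty => simp [pbot q]
  | insert a s ha ih => rw [Finset.sup_insert, psup, ih]; simp

theorem pfinf (q : Pt B) {ι : Type} (s : Finset ι) (f : ι → B) :
    q.v (s.inf f) ↔ ∀ i ∈ s, q.v (f i) := by
  classical
  induction s using Finset.induction_on with
  | empty => simp [q.top]
  | insert a s ha ih => rw [Finset.inf_insert, q.inf, ih]; simp

theorem pmono (q : Pt B) {a b : B} (h : a ≤ b) (ha : q.v a) : q.v b := by
  have h1 : a ⊓ b = a := inf_eq_left.2 h
  rw [← h1, q.inf] at ha
  exact ha.2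

theorem le_of {a b : B} (h : ∀ q : Pt B, q.v a → q.v b) : a ≤ b := by
  by_contra hab
  obtain ⟨J, hJ, hIJ, hFJ⟩ := DistribLattice.prime_ideal_of_disjoint_filter_ideal
    (F := Order.PFilter.principal a) (I := Order.Ideal.principal b) (by
      rw [Set.disjoint_left]
      intro x hx hx'
      exact hab (le_trans (Order.PFilter.mem_principal.1 hx) (Order.Ideal.mem_principal.1 hx')))
  let q : Pt B :=
    { v := fun x => x ∉ J
      top := hJ.toIsProper.top_notMem
      inf := by
        intro x y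
        constructor
        · intro hxy
          exact ⟨fun hx => hxy (J.lower inf_le_left hx), fun hy => hxy (J.lower inf_le_right hy)⟩
        · rintro ⟨hx, hy⟩ hxy
          rcases hJ.mem_or_mem hxy with h1 | h1
          · exact hx h1
          · exact hy h1
      compl := by
        intro x
        constructor
        · intro h1 h2
          rcases hJ.mem_or_compl_mem (x := x) with h3 | h3
          · exact h2 h3
          · exact h1 h3
        · intro h1 h2
          exact h1 (hJ.toIsProper.notMem_of_compl_mem h2) }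
  have h1 : q.v a := by
    intro ha
    exact Set.disjoint_left.1 hFJ (Order.PFilter.mem_principal.2 le_rfl) ha
  exact h q h1 (hIJ (Order.Ideal.mem_principal.2 le_rfl))

theorem ext_of {a b : B} (h : ∀ q : Pt B, q.v a ↔ q.v b) : a = b :=
  le_antisymm (le_of fun q => (h q).1) (le_of fun q => (h q).2)

/-- transport by an automorphism -/
def tr (e : B ≃o B) (q : Pt B) : Pt B where
  v := fun a => q.v (e a)
  top := by rw [map_top]; exact q.top
  inf := fun a b => by rw [map_inf, q.inf]
  compl := fun a => by rw [map_compl' e a, q.compl]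

theorem psymm (q : Pt B) (a b : B) : q.v (symmDiff a b) ↔ ¬ (q.v a ↔ q.v b) := by
  rw [symmDiff_eq, psup, q.inf, q.inf, q.compl, q.compl]
  tauto

end Points


/-! ### Finite dependence -/

section Rep

variable {B : Type} [BooleanAlgebra B]

theorem rep {ι : Type} [Finite ι] (F : ι → B) (P : (ι → Prop) → Prop) :
    ∃ x : B, ∀ q : Pt B, q.v x ↔ P fun i => q.v (F i) := by
  classical
  have := Fintype.ofFinite ι
  refine ⟨(univ.filter fun T : Finset ι => P fun i => i ∈ T).sup fun T =>
    univ.inf fun i => if i ∈ T then F i else (F i)ᶜ, ?_⟩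
  intro q
  rw [pfsup]
  have h1 : ∀ T : Finset ι, q.v (univ.inf fun i => if i ∈ T then F i
      else (F i)ᶜ) ↔ ∀ i, (i ∈ T ↔ q.v (F i)) := by
    intro T
    rw [pfinf]
    constructor
    · intro h i
      have h2 := h i (mem_univ i)
      by_cases hi : i ∈ T
      · rw [if_pos hi] at h2
        exact ⟨fun _ => h2, fun _ => hi⟩
      · rw [if_neg hi, q.compl] at h2
        exact ⟨fun h3 => absurd h3 hi, fun h3 => absurd h3 h2⟩
    · intro h i _
      by_cases hi : i ∈ T
      · rw [if_pos hi]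
        exact (h i).1 hi
      · rw [if_neg hi, q.compl]
        exact fun h3 => hi ((h i).2 h3)
  constructor
  · rintro ⟨T, hT, hv⟩
    have h2 := (h1 T).1 hv
    rw [mem_filter] at hT
    have h3 : (fun i => q.v (F i)) = fun i => i ∈ T := funext fun i => propext (h2 i).symm
    rw [h3]
    exact hT.2
  · intro h
    refine ⟨univ.filter fun i => q.v (F i), ?_, (h1 _).2 fun i => by simp⟩
    rw [mem_filter]
    refine ⟨mem_univ _, ?_⟩
    have h3 : (fun i => i ∈ univ.filter fun i => q.v (F i)) = fun i => q.v (F i) :=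
      funext fun i => propext (by simp)
    rw [h3]
    exact h

end Rep

/-! ### Lexicographic comparison -/

section Lex

variable {B : Type} (f : B → ℕ)

open Classical in
/-- the first digits of a set -/
noncomputable def wt (χ : B → Prop) : ℕ → ℕ
  | 0 => 0
  | n + 1 => 2 * wt χ n + if ∃ b, f b = n ∧ χ b then 1 else 0

theorem wt_congr {χ χ' : B → Prop} {n : ℕ} (h : ∀ b, f b < n → (χ b ↔ χ' b)) :
    wt f χ n = wt f χ' n := by
  induction n with
  | zero => rfl
  | succ n ih =>
    have h1 := ih fun b hb => h b (by omega)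
    have h2 : (∃ b, f b = n ∧ χ b) ↔ ∃ b, f b = n ∧ χ' b := by
      constructor
      · rintro ⟨b, hb, hc⟩
        exact ⟨b, hb, (h b (by omega)).1 hc⟩
      · rintro ⟨b, hb, hc⟩
        exact ⟨b, hb, (h b (by omega)).2 hc⟩
    unfold wt
    rw [h1]
    by_cases h3 : ∃ b, f b = n ∧ χ b
    · rw [if_pos h3, if_pos (h2.1 h3)]
    · rw [if_neg h3, if_neg fun h4 => h3 (h2.2 h4)]

theorem wt_step {χ χ' : B → Prop} {n : ℕ} (h : wt f χ n < wt f χ' n) :
    wt f χ (n + 1) < wt f χ' (n + 1) := by
  unfold wt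
  split_ifs <;> omega

theorem wt_lt {χ χ' : B → Prop} {n m : ℕ} (hnm : n ≤ m) (h : wt f χ n < wt f χ' n) :
    wt f χ m < wt f χ' m := by
  induction m, hnm using Nat.le_induction with
  | base => exact h
  | succ m _ ih => exact wt_step f ih

theorem wt_eq (hf : Function.Injective f) {χ χ' : B → Prop} {n : ℕ} (h : wt f χ n = wt f χ' n) :
    ∀ b, f b < n → (χ b ↔ χ' b) := by
  induction n with
  | zero => intro b hb; omega
  | succ n ih =>
    unfold wt at h
    have h1 : wt f χ n = wt f χ' n := by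
      split_ifs at h <;> omega
    have h2 : (∃ b, f b = n ∧ χ b) ↔ ∃ b, f b = n ∧ χ' b := by
      by_cases h3 : ∃ b, f b = n ∧ χ b <;> by_cases h4 : ∃ b, f b = n ∧ χ' b
      · exact ⟨fun _ => h4, fun _ => h3⟩
      · rw [if_pos h3, if_neg h4] at h; omega
      · rw [if_neg h3, if_pos h4] at h; omega
      · exact ⟨fun h5 => absurd h5 h3, fun h5 => absurd h5 h4⟩
    intro b hb
    rcases Nat.lt_succ_iff_lt_or_eq.1 hb with hb | hb
    · exact ih h1 b hb
    · constructor
      · intro hc
        obtain ⟨b', hb', hc'⟩ := h2.1 ⟨b, hb, hc⟩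
        rwa [hf (hb.trans hb'.symm)]
      · intro hc
        obtain ⟨b', hb', hc'⟩ := h2.2 ⟨b, hb, hc⟩
        rwa [hf (hb.trans hb'.symm)]

end Lex

/-! ### Colouring of the patterns -/

theorem kap (G : Type) [Group G] [Finite G] : ∃ κ : (G → Prop) → Fin (Nat.card G),
    ∀ (f : G → Prop) (h : G), κ (fun u => f (h * u)) = κ f → (fun u => f (h * u)) = f := by
  let r : Setoid (G → Prop) :=
    { r := fun f f' => ∃ z : G, ∀ u, f' u = f (z * u)
      iseqv :=
        { refl := fun f => ⟨1, fun u => by rw [one_mul]⟩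
          symm := by
            rintro f f' ⟨z, hz⟩
            exact ⟨z⁻¹, fun u => by rw [hz, mul_inv_cancel_left]⟩
          trans := by
            rintro f f' f'' ⟨z, hz⟩ ⟨z', hz'⟩
            exact ⟨z * z', fun u => by rw [hz', hz, mul_assoc]⟩ } }
  have h1 : ∀ f : G → Prop, ∃ z : G, ∀ u, f u = (Quotient.mk r f).out (z * u) := by
    intro f
    exact Quotient.exact (Quotient.out_eq (Quotient.mk r f))
  choose z hz using h1
  refine ⟨fun f => Finite.equivFin G (z f), ?_⟩
  intro f h hκ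
  have h2 : z (fun u => f (h * u)) = z f := (Finite.equivFin G).injective hκ
  have h3 : Quotient.mk r (fun u => f (h * u)) = Quotient.mk r f :=
    Quotient.sound (Setoid.symm' r ⟨h, fun u => rfl⟩)
  funext u
  have h4 := hz (fun u => f (h * u)) u
  rw [h2, h3, ← hz f u] at h4
  exact h4

/-! ### The action -/

section Action

variable {G : Type} [CommGroup G] [Finite G] {B : Type} [BooleanAlgebra B]
  (s : G → B → B) (hle : ∀ g a b, a ≤ b ↔ s g a ≤ s g b) (h1 : ∀ a, s 1 a = a)
  (hm : ∀ g h a, s (g * h) a = s g (s h a))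

/-- the automorphisms -/
def E (g : G) : B ≃o B where
  toFun := s g
  invFun := s g⁻¹
  left_inv a := by rw [← hm, inv_mul_cancel, h1]
  right_inv a := by rw [← hm, mul_inv_cancel, h1]
  map_rel_iff' := by
    intro a b
    exact (hle g a b).symm

/-- the translates of a point -/
def Q (q : Pt B) (g : G) : Pt B := tr (E s hle h1 hm g) q

omit [Finite G] in
theorem Q_v (q : Pt B) (g : G) (b : B) : (Q s hle h1 hm q g).v b ↔ q.v (s g b) := Iff.rfl

variable (f : B → ℕ)

/-- the digits of the translates -/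
noncomputable def W (q : Pt B) (g : G) (n : ℕ) : ℕ := wt f (fun b => q.v (s g b)) n

omit [Finite G] in
theorem W_Q (q : Pt B) (h g : G) (n : ℕ) : W s f (Q s hle h1 hm q h) g n = W s f q (h * g) n := by
  unfold W
  apply wt_congr
  intro b _
  rw [Q_v, hm]

omit [CommGroup G] in
theorem ex_ga [Nonempty G] (q : Pt B) : ∃ γ : G, ∀ n g, W s f q g n ≤ W s f q γ n := by
  by_contra hc
  push Not at hc
  choose n g hn using hc
  obtain ⟨N, hN⟩ := (Set.finite_range n).bddAbove
  obtain ⟨γ, hγ⟩ := Finite.exists_max fun g => W s f q g N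
  have h2 := wt_lt f (hN ⟨γ, rfl⟩) (hn γ)
  exact absurd (hγ (g γ)) (not_le.2 h2)

/-- the base point -/
noncomputable def ga (q : Pt B) : G := (ex_ga s f q).choose

theorem ga_spec (q : Pt B) (n : ℕ) (g : G) : W s f q g n ≤ W s f q (ga s f q) n :=
  (ex_ga s f q).choose_spec n g

include hle h1 hm in
theorem e_inv (hf : Function.Injective f) (q : Pt B) (h : G) (b : B) :
    q.v (s (h * ga s f (Q s hle h1 hm q h)) b) ↔ q.v (s (ga s f q) b) := by
  have h2 : W s f q (h * ga s f (Q s hle h1 hm q h)) (f b + 1) =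
      W s f q (ga s f q) (f b + 1) := by
    apply le_antisymm (ga_spec s f q _ _)
    have h3 := ga_spec s f (Q s hle h1 hm q h) (f b + 1) (h⁻¹ * ga s f q)
    rw [W_Q, W_Q, mul_inv_cancel_left] at h3
    exact h3
  exact wt_eq f hf h2 b (Nat.lt_succ_self _)

omit [CommGroup G] in
theorem rep2 (hf : Function.Injective f) (n : ℕ) (P : (G → B → Prop) → Prop) :
    ∃ x : B, ∀ q : Pt B, q.v x ↔ P fun g b => f b < n ∧ q.v (s g b) := by
  have hfin : Finite {b : B // f b < n} := by
    apply Finite.of_injective (fun b : {b : B // f b < n} => (⟨f b.1, b.2⟩ : Fin n))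
    intro b b' hb
    simp only [Fin.mk.injEq] at hb
    exact Subtype.ext (hf hb)
  obtain ⟨x, hx⟩ := rep (fun i : G × {b : B // f b < n} => s i.1 i.2.1)
    (fun χ => P fun g b => ∃ h : f b < n, χ (g, ⟨b, h⟩))
  refine ⟨x, fun q => ?_⟩
  rw [hx]
  have : (fun (g : G) (b : B) => ∃ _ : f b < n, q.v (s g b)) =
      fun g b => f b < n ∧ q.v (s g b) := by
    funext g b
    exact propext ⟨fun ⟨h, h'⟩ => ⟨h, h'⟩, fun ⟨h, h'⟩ => ⟨h, h'⟩⟩
  rw [this]

omit [CommGroup G] [Finite G] in
theorem W_tr (q : Pt B) (g : G) (n : ℕ) :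
    wt f (fun b => f b < n ∧ q.v (s g b)) n = W s f q g n := by
  unfold W
  apply wt_congr
  intro b hb
  exact ⟨fun h => h.2, fun h => ⟨hb, h⟩⟩

theorem ex_R (hf : Function.Injective f) :
    ∃ R : B → B, ∀ b (q : Pt B), q.v (R b) ↔ q.v (s (ga s f q) b) := by
  have : ∀ b, ∃ x : B, ∀ q : Pt B, q.v x ↔ q.v (s (ga s f q) b) := by
    intro b
    obtain ⟨x, hx⟩ := rep2 s f hf (f b + 1) (fun χ => ∃ γ : G,
      (∀ g, wt f (χ g) (f b + 1) ≤ wt f (χ γ) (f b + 1)) ∧ χ γ b)
    refine ⟨x, fun q => ?_⟩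
    rw [hx]
    simp only [W_tr]
    constructor
    · rintro ⟨γ, hγ, -, hv⟩
      have h2 : W s f q γ (f b + 1) = W s f q (ga s f q) (f b + 1) :=
        le_antisymm (ga_spec s f q _ _) (hγ _)
      exact (wt_eq f hf h2 b (Nat.lt_succ_self _)).1 hv
    · intro h
      exact ⟨ga s f q, fun g => ga_spec s f q _ g, Nat.lt_succ_self _, h⟩
  choose R hR using this
  exact ⟨R, hR⟩

end Action

theorem AGA : S_AGA := by
  intro G _ _ B _ _ s hle h1 hm
  obtain ⟨f, hf⟩ := Countable.exists_injective_nat B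
  obtain ⟨R, hR⟩ := ex_R s f hf
  have hΦ : ∀ b g (q : Pt B), q.v (R (s g⁻¹ b)) ↔ q.v (s (ga s f q * g⁻¹) b) := by
    intro b g q
    rw [hR, hm]
  have hinv : ∀ g b, s g (R b) = R b := by
    intro h b
    apply ext_of
    intro q
    have h2 : q.v (s h (R b)) ↔ (Q s hle h1 hm q h).v (R b) := Iff.rfl
    rw [h2, hR, Q_v, ← hm, e_inv s hle h1 hm f hf, hR]
  refine ⟨fun b g => R (s g⁻¹ b), ?_, ?_, ?_, ?_, ?_, ?_⟩
  · intro b g h
    exact hinv h _
  · intro a b
    constructor
    · intro hab g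
      apply le_of
      intro q hq
      rw [hΦ] at hq ⊢
      exact pmono q ((hle _ a b).1 hab) hq
    · intro h
      apply le_of
      intro q hq
      have h2 : ∀ x, q.v (R (s (ga s f q)⁻¹ x)) ↔ q.v x := by
        intro x
        rw [hΦ, mul_inv_cancel, h1]
      exact (h2 b).1 (pmono q (h (ga s f q)) ((h2 a).2 hq))
  · intro b g h
    show R (s g⁻¹ (s h b)) = R (s (h⁻¹ * g)⁻¹ b)
    rw [← hm, mul_inv_rev, inv_inv]
  · intro b hb g
    show R (s g⁻¹ b) = b
    rw [hb]
    apply ext_of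
    intro q
    rw [hR, hb]
  · intro b g h
    obtain ⟨κ, hκ⟩ := kap G
    have hx : ∀ j, ∃ x : B, ∀ q : Pt B, q.v x ↔ κ (fun u => q.v (s u b)) = j := by
      intro j
      exact rep (fun u : G => s u b) (fun χ => κ χ = j)
    choose x hx using hx
    have key : ∀ q : Pt B, q.v (symmDiff (R (s g⁻¹ b)) (R (s (g * h)⁻¹ b))) →
        ¬ ((fun u => q.v (s (h * u) b)) = fun u => q.v (s u b)) := by
      intro q hq he
      rw [psymm, hΦ, hΦ] at hq
      apply hq
      have h2 := congrFun he (ga s f q * (g * h)⁻¹)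
      have h3 : h * (ga s f q * (g * h)⁻¹) = ga s f q * g⁻¹ := by
        rw [mul_inv, mul_comm h, mul_assoc, mul_assoc, inv_mul_cancel, mul_one]
      rw [h3] at h2
      rw [h2]
    refine ⟨fun j => symmDiff (R (s g⁻¹ b)) (R (s (g * h)⁻¹ b)) ⊓ x j, ?_, ?_⟩
    · intro j
      apply le_antisymm _ bot_le
      apply le_of
      intro q hq
      exfalso
      rw [q.inf, q.inf] at hq
      obtain ⟨⟨hc, hj⟩, hq2⟩ := hq
      have hq3 : (Q s hle h1 hm q h).v (symmDiff (R (s g⁻¹ b)) (R (s (g * h)⁻¹ b)) ⊓ x j) := hq2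
      rw [(Q s hle h1 hm q h).inf, hx] at hq3
      rw [hx] at hj
      have h4 := hq3.2
      have h5 : (fun u => (Q s hle h1 hm q h).v (s u b)) = fun u => q.v (s (h * u) b) := by
        funext u
        apply propext
        rw [Q_v, hm]
      rw [h5] at h4
      exact key q hc (hκ (fun u => q.v (s u b)) h (h4.trans hj.symm))
    · intro y
      constructor
      · intro hy
        apply le_of
        intro q hq
        have h2 := hy (κ fun u => q.v (s u b))
        exact pmono q h2 ((q.inf _ _).2 ⟨hq, (hx _ q).2 rfl⟩)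
      · intro hy j
        exact inf_le_left.trans hy
  · intro c hc hav
    choose d hd1 hd2 using hav
    obtain ⟨n1, hn1⟩ := (Set.finite_range fun g => f (c g)).bddAbove
    obtain ⟨n2, hn2⟩ := (Set.finite_range fun t : G × G × Fin (Nat.card G) =>
      f (d t.1 t.2.1 t.2.2)).bddAbove
    obtain ⟨n, hn1', hn2'⟩ : ∃ n, n1 < n ∧ n2 < n := ⟨max n1 n2 + 1, by omega, by omega⟩
    have hfc : ∀ g, f (c g) < n := fun g => lt_of_le_of_lt (hn1 ⟨g, rfl⟩) hn1'
    have hfd : ∀ g h j, f (d g h j) < n := fun g h j =>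
      lt_of_le_of_lt (hn2 ⟨(g, h, j), rfl⟩) hn2'
    obtain ⟨b, hb⟩ := rep2 s f hf n (fun χ => ∃ u : G,
      (∀ g, wt f (χ g) n ≤ wt f (χ u) n) ∧ χ u (c u))
    have hb' : ∀ q : Pt B, q.v b ↔ ∃ u : G, (∀ g, W s f q g n ≤ W s f q u n) ∧ q.v (c u) := by
      intro q
      rw [hb]
      simp only [W_tr]
      constructor
      · rintro ⟨u, hu, -, hv⟩
        rw [hc] at hv
        exact ⟨u, hu, hv⟩
      · rintro ⟨u, hu, hv⟩
        refine ⟨u, hu, hfc u, ?_⟩
        rw [hc]
        exact hv
    have wd : ∀ (q : Pt B) (u u' : G), (∀ g, W s f q g n ≤ W s f q u n) →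
        (∀ g, W s f q g n ≤ W s f q u' n) → q.v (c u) → q.v (c u') := by
      intro q u u' hu hu' hv
      by_contra hv'
      have e : u' = u * (u⁻¹ * u') := by rw [mul_inv_cancel_left]
      have h2 : q.v (s u (symmDiff (c u) (c (u * (u⁻¹ * u'))))) := by
        have h3 : q.v (s u (symmDiff (c u) (c (u * (u⁻¹ * u'))))) ↔
          (Q s hle h1 hm q u).v (symmDiff (c u) (c (u * (u⁻¹ * u')))) := Iff.rfl
        rw [h3, psymm, Q_v, Q_v, hc, hc, ← e]
        intro h4
        exact hv' (h4.1 hv)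
      have h3 : (Q s hle h1 hm q u).v (univ.sup (d u (u⁻¹ * u'))) := by
        exact pmono (Q s hle h1 hm q u) ((hd2 u (u⁻¹ * u') _).1 fun j =>
          Finset.le_sup (f := d u (u⁻¹ * u')) (mem_univ j)) h2
      rw [pfsup] at h3
      obtain ⟨j, -, hj⟩ := h3
      rw [Q_v] at hj
      have h5 : W s f q u n = W s f q u' n := le_antisymm (hu' u) (hu u')
      have h6 := (wt_eq f hf h5 (d u (u⁻¹ * u') j) (hfd _ _ _)).1 hj
      have h7 : s u' (d u (u⁻¹ * u') j) = s u (s (u⁻¹ * u') (d u (u⁻¹ * u') j)) := by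
        rw [← hm, ← e]
      rw [h7] at h6
      have h8 : (Q s hle h1 hm q u).v (d u (u⁻¹ * u') j ⊓ s (u⁻¹ * u') (d u (u⁻¹ * u') j)) := by
        rw [(Q s hle h1 hm q u).inf]
        exact ⟨hj, h6⟩
      rw [hd1] at h8
      exact pbot _ h8
    refine ⟨b, ?_⟩
    funext g
    apply ext_of
    intro q
    rw [hΦ]
    have h2 : q.v (s (ga s f q * g⁻¹) b) ↔ (Q s hle h1 hm q (ga s f q * g⁻¹)).v b := Iff.rfl
    rw [h2, hb']
    have hmax : ∀ g', W s f (Q s hle h1 hm q (ga s f q * g⁻¹)) g' n ≤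
        W s f (Q s hle h1 hm q (ga s f q * g⁻¹)) g n := by
      intro g'
      rw [W_Q, W_Q, inv_mul_cancel_right]
      exact ga_spec s f q _ _
    have h3 : (Q s hle h1 hm q (ga s f q * g⁻¹)).v (c g) ↔ q.v (c g) := by
      rw [Q_v, hc]
    rw [← h3]
    constructor
    · rintro ⟨u, hu, hv⟩
      exact wd _ u g hu hmax hv
    · intro hv
      exact ⟨g, hmax, hv⟩

end Pool.Agent.N619.VB.AGAp
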